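import Pool.Agent.H35Z.Herm.Main

/-!
# Non-frame Hermite Gabor systems of density above `n + 1`, for every `n`

Outline. Take the lattice `aℤ × a⁻¹ℤ` with `a` large. The `n`-th Hermite function changes sign `n`
times, and for large `a` the real sums `∑ h_n(y + j a)` and `∑ (-1)^j h_n(y + j a)` are dominated by
the term `j = 0` at the `n + 1` alternation points, so each has `n` zeros in one period. These are
`2n` zeros of the Zak transform (for `n = 1` oddness gives three zeros). The union of the
corresponding cosets has density `2n > n + 1`, and testing on `∑_{j < N} 1_{(ja, ja + η]}` with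
Parseval's identity shows that the lower frame bound fails.
-/

namespace Pool.Agent.Results.MP_bef260_an.AllOrdersNonFrame

open Pool.Agent.H35Z.Herm

/-- For every `n ≥ 1` there is a separated set of lower Beurling density greater than `n + 1` over
which the Gabor system of the `n`-th Hermite function is not a frame for `L²(ℝ)`. -/
theorem result (n : ℕ) (hn : 1 ≤ n) : ∃ Γ : Set (ℝ × ℝ), IsSeparated Γ ∧
    (n : ENNReal) + 1 < lowerDensity Γ ∧ ¬ IsFrame (fun t => (hermiteFn n t : ℂ)) Γ :=
  main n hn

end Pool.Agent.Results.MP_bef260_an.AllOrdersNonFrame
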